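import Mathlib
import Pool.Agent.H56Z.Horo.Exp

set_option autoImplicit false

namespace Pool.Agent.Results.MP_eca5e6_al.AExpGrowth

open Filter

/-- For a finitely generated group of exponential growth and every finite generating set, the
horofunction boundary of the Cayley graph is uncountable. -/
theorem result :
    ∀ (G : Type) [Group G] (S : Finset G),
      Subgroup.closure (S : Set G) = ⊤ →
      ∀ Γ : SimpleGraph G, Γ = SimpleGraph.fromRel (fun g h : G => g⁻¹ * h ∈ S) →
      (∃ c : ℝ, 1 < c ∧ ∃ᶠ n : ℕ in atTop, c ^ n ≤ (({x : G | Γ.dist 1 x ≤ n}.ncard : ℕ) : ℝ)) →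
      ∀ A : Set (G → ℤ),
        A = Set.range (fun x : G => fun z : G => ((Γ.dist z x : ℕ) : ℤ) - ((Γ.dist 1 x : ℕ) : ℤ)) →
        ¬ (closure A \ A).Countable := by
  rintro G _ S hS Γ rfl ⟨c, hc, hg⟩ A rfl
  exact Pool.Agent.H56Z.Horo.uncountable S hS c hc hg

end Pool.Agent.Results.MP_eca5e6_al.AExpGrowth
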